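import Pool.Agent.W2helper3.BQ.Stm3
import Pool.Agent.W2helper3.BQ.MoA

/-!
# Piece NIK of project BQ3 (helper3, MP_dd244f_an): a crude Nikolskii inequality
-/

set_option autoImplicit false

open MeasureTheory Set Filter Topology
open scoped SchwartzMap ENNReal ContDiff BigOperators

namespace Pool.Agent.W2helper84.BQ

open Pool.Agent.W2helper3.BQ

/-- a trigonometric polynomial -/
noncomputable def tp (N : ℕ) (a : ℤ → ℂ) (t : ℝ) : ℂ :=
  ∑ k ∈ Finset.Icc (-(N : ℤ)) N, Complex.exp ((k : ℂ) * t * Complex.I) * a k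

lemma tp_cont (N : ℕ) (a : ℤ → ℂ) : Continuous (tp N a) := by
  unfold tp
  fun_prop

lemma tp_periodic (N : ℕ) (a : ℤ → ℂ) : Function.Periodic (tp N a) (2 * Real.pi) := by
  intro t
  unfold tp
  refine Finset.sum_congr rfl fun k _ => ?_
  congr 1
  have e : (k : ℂ) * ((t + 2 * Real.pi : ℝ) : ℂ) * Complex.I =
      (k : ℂ) * t * Complex.I + k * (2 * Real.pi * Complex.I) := by
    push_cast
    ring
  rw [e, Complex.exp_add, Complex.exp_int_mul_two_pi_mul_I, mul_one]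

lemma norm_shift (N : ℕ) (M : ℤ) (a : ℤ → ℂ) (t : ℝ) :
    ‖∑ k ∈ Finset.Icc (-(N : ℤ)) N, Complex.exp (((k : ℂ) - M) * t * Complex.I) * a k‖ =
      ‖tp N a t‖ := by
  have e : ∑ k ∈ Finset.Icc (-(N : ℤ)) N, Complex.exp (((k : ℂ) - M) * t * Complex.I) * a k =
      Complex.exp (((-(M : ℝ) : ℝ) : ℂ) * t * Complex.I) * tp N a t := by
    unfold tp
    rw [Finset.mul_sum]
    refine Finset.sum_congr rfl fun k _ => ?_
    rw [← mul_assoc, ← Complex.exp_add]
    congr 2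
    push_cast
    ring
  rw [e, norm_mul, norm_exp_I, one_mul]

lemma coef_le (N : ℕ) (a : ℤ → ℂ) (m : ℝ) (h : ∀ t, ‖tp N a t‖ ≤ m) (k : ℤ)
    (hk : k ∈ Finset.Icc (-(N : ℤ)) N) : ‖a k‖ ≤ m := by
  have h1 := avc_mode (Finset.Icc (-(N : ℤ)) N) 0 a k hk
  rw [← h1]
  refine le_trans (norm_avc_le _) ?_
  rw [← av_const m]
  apply av_mono
  · fun_prop
  · exact continuous_const
  · intro t
    rw [norm_mul, norm_shift]
    have e : Complex.exp (-((k : ℂ) - ((0 : ℤ) : ℂ)) * t * Complex.I) =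
        Complex.exp (((-(k : ℝ) : ℝ) : ℂ) * t * Complex.I) := by
      congr 2
      push_cast
      ring
    rw [e, norm_exp_I, one_mul]
    exact h t

lemma exp_diff (k : ℤ) (t s : ℝ) :
    ‖Complex.exp ((k : ℂ) * t * Complex.I) - Complex.exp ((k : ℂ) * s * Complex.I)‖ ≤
      |(k : ℝ)| * |t - s| := by
  have e : Complex.exp ((k : ℂ) * t * Complex.I) - Complex.exp ((k : ℂ) * s * Complex.I) =
      Complex.exp (((k : ℝ) : ℂ) * s * Complex.I) *
        (Complex.exp (Complex.I * ((k * (t - s) : ℝ) : ℂ)) - 1) := by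
    rw [mul_sub, ← Complex.exp_add, mul_one]
    congr 2
    push_cast
    ring
  rw [e, norm_mul, norm_exp_I, one_mul, ← abs_mul]
  exact Real.norm_exp_I_mul_ofReal_sub_one_le

lemma tp_diff (N : ℕ) (a : ℤ → ℂ) (m : ℝ) (h : ∀ t, ‖tp N a t‖ ≤ m) (t s : ℝ) :
    ‖tp N a t - tp N a s‖ ≤ (2 * N + 1) * (N * |t - s| * m) := by
  unfold tp
  rw [← Finset.sum_sub_distrib]
  refine le_trans (norm_sum_le _ _) ?_
  have hm : 0 ≤ m := le_trans (norm_nonneg _) (h 0)
  have h1 : ∀ k ∈ Finset.Icc (-(N : ℤ)) N,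
      ‖Complex.exp ((k : ℂ) * t * Complex.I) * a k - Complex.exp ((k : ℂ) * s * Complex.I) * a k‖ ≤
        N * |t - s| * m := by
    intro k hk
    rw [← sub_mul, norm_mul]
    have hk2 : |(k : ℝ)| ≤ N := by
      rw [Finset.mem_Icc] at hk
      rw [abs_le]
      constructor
      · exact_mod_cast hk.1
      · exact_mod_cast hk.2
    refine mul_le_mul (le_trans (exp_diff k t s) ?_) (coef_le N a m h k hk) (norm_nonneg _)
      (by positivity)
    exact mul_le_mul_of_nonneg_right hk2 (abs_nonneg _)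
  refine le_trans (Finset.sum_le_card_nsmul _ _ _ h1) ?_
  rw [Int.card_Icc, nsmul_eq_mul]
  have e : (((N : ℤ) + 1 - -(N : ℤ)).toNat : ℝ) = 2 * N + 1 := by
    have : ((N : ℤ) + 1 - -(N : ℤ)).toNat = 2 * N + 1 := by omega
    rw [this]
    push_cast
    ring
  rw [e]

lemma exists_max (N : ℕ) (a : ℤ → ℂ) : ∃ t₀, ∀ t, ‖tp N a t‖ ≤ ‖tp N a t₀‖ := by
  have hpi : (0 : ℝ) < 2 * Real.pi := by positivity
  obtain ⟨t₀, _, h0⟩ := (isCompact_Icc (a := (0 : ℝ)) (b := 2 * Real.pi)).exists_isMaxOn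
    ⟨0, by constructor <;> positivity⟩ (tp_cont N a).norm.continuousOn
  refine ⟨t₀, fun t => ?_⟩
  obtain ⟨y, hy, hy2⟩ := (tp_periodic N a).exists_mem_Ico₀ hpi t
  rw [hy2]
  exact h0 (Ico_subset_Icc_self hy)

lemma av_ge (N : ℕ) (a : ℤ → ℂ) (q : ℝ) (hq : 2 ≤ q) (t₀ : ℝ)
    (h : ∀ t, ‖tp N a t‖ ≤ ‖tp N a t₀‖) :
    (‖tp N a t₀‖ / 2) ^ q ≤ 26 * ((N : ℝ) + 1) ^ 2 * av fun s => ‖tp N a s‖ ^ q := by
  have hpi := Real.pi_pos
  obtain ⟨δ, hδ⟩ : ∃ δ : ℝ, δ = 1 / (2 * (N + 1) * (2 * N + 1)) := ⟨_, rfl⟩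
  have hδ0 : 0 < δ := by rw [hδ]; positivity
  have hδ1 : δ ≤ 2 * Real.pi := by
    have h1 : δ ≤ 1 := by
      rw [hδ, div_le_one (by positivity)]
      have : (0 : ℝ) ≤ N := Nat.cast_nonneg _
      nlinarith
    have := Real.pi_gt_three
    linarith
  have hlow : ∀ t ∈ Icc t₀ (t₀ + δ), ‖tp N a t₀‖ / 2 ≤ ‖tp N a t‖ := by
    intro t ht
    have h1 := tp_diff N a _ h t₀ t
    have h2 : |t₀ - t| ≤ δ := by
      rw [abs_le]
      constructor
      · linarith [ht.2]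
      · linarith [ht.1]
    have h3 : ‖tp N a t₀‖ ≤ ‖tp N a t‖ + ‖tp N a t₀ - tp N a t‖ := by
      calc ‖tp N a t₀‖ = ‖tp N a t + (tp N a t₀ - tp N a t)‖ := by rw [add_sub_cancel]
        _ ≤ _ := norm_add_le _ _
    have h4 : (2 * (N : ℝ) + 1) * (N * |t₀ - t| * ‖tp N a t₀‖) ≤ ‖tp N a t₀‖ / 2 := by
      have h5 : (2 * (N : ℝ) + 1) * (N * |t₀ - t| * ‖tp N a t₀‖) ≤
          (2 * (N : ℝ) + 1) * ((N + 1) * δ * ‖tp N a t₀‖) := by
        gcongr
        linarith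
      refine le_trans h5 (le_of_eq ?_)
      rw [hδ]
      field_simp
    linarith
  have hf : Continuous fun s => ‖tp N a s‖ ^ q :=
    (tp_cont N a).norm.rpow_const fun _ => Or.inr (by linarith)
  have hper : Function.Periodic (fun s => ‖tp N a s‖ ^ q) (2 * Real.pi) := by
    intro s
    simp only [tp_periodic N a s]
  have hav : (av fun s => ‖tp N a s‖ ^ q) =
      (1 / (2 * Real.pi)) * ∫ s in t₀..(t₀ + 2 * Real.pi), ‖tp N a s‖ ^ q := by
    unfold av
    congr 1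
    have := hper.intervalIntegral_add_eq 0 t₀
    rw [zero_add] at this
    exact this
  have h1 : δ * (‖tp N a t₀‖ / 2) ^ q ≤ ∫ s in t₀..(t₀ + 2 * Real.pi), ‖tp N a s‖ ^ q := by
    have h2 : δ * (‖tp N a t₀‖ / 2) ^ q = ∫ _ in t₀..(t₀ + δ), (‖tp N a t₀‖ / 2) ^ q := by
      rw [intervalIntegral.integral_const, smul_eq_mul, add_sub_cancel_left]
    have h3 : ∫ _ in t₀..(t₀ + δ), (‖tp N a t₀‖ / 2) ^ q ≤
        ∫ s in t₀..(t₀ + δ), ‖tp N a s‖ ^ q := by
      apply intervalIntegral.integral_mono_on (by linarith)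
        (intervalIntegrable_const) (hf.intervalIntegrable _ _)
      intro s hs
      exact Real.rpow_le_rpow (by positivity) (hlow s hs) (by linarith)
    have h4 : ∫ s in t₀..(t₀ + δ), ‖tp N a s‖ ^ q ≤
        ∫ s in t₀..(t₀ + 2 * Real.pi), ‖tp N a s‖ ^ q := by
      apply intervalIntegral.integral_mono_interval le_rfl (by linarith) (by linarith)
      · exact Filter.Eventually.of_forall fun s => by positivity
      · exact hf.intervalIntegrable _ _
    rw [h2]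
    exact le_trans h3 h4
  rw [hav]
  have h5 : (‖tp N a t₀‖ / 2) ^ q ≤
      (1 / δ) * ∫ s in t₀..(t₀ + 2 * Real.pi), ‖tp N a s‖ ^ q := by
    rw [one_div, ← div_eq_inv_mul, le_div_iff₀ hδ0, mul_comm]
    exact h1
  refine le_trans h5 ?_
  rw [← mul_assoc]
  have hnn : 0 ≤ ∫ s in t₀..(t₀ + 2 * Real.pi), ‖tp N a s‖ ^ q :=
    intervalIntegral.integral_nonneg (by linarith) fun s _ => by positivity
  refine mul_le_mul_of_nonneg_right ?_ hnn
  rw [hδ, one_div_one_div, mul_one_div, le_div_iff₀ (by positivity)]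
  have hN : (0 : ℝ) ≤ N := Nat.cast_nonneg _
  have h6 : 2 * ((N : ℝ) + 1) * (2 * N + 1) ≤ 4 * (N + 1) ^ 2 := by nlinarith
  have h7 : 2 * Real.pi ≤ 6.5 := by
    have := Real.pi_lt_d2
    linarith
  calc 2 * ((N : ℝ) + 1) * (2 * N + 1) * (2 * Real.pi) ≤ 4 * (N + 1) ^ 2 * 6.5 :=
        mul_le_mul h6 h7 (by positivity) (by positivity)
    _ = 26 * (N + 1) ^ 2 := by ring

lemma const_le (N : ℕ) (q : ℝ) (hq : 2 ≤ q) (hN : Real.log (N + 1) ≤ q) :
    (26 * ((N : ℝ) + 1) ^ 2) ^ (1 / q) ≤ 50 := by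
  have hq0 : 0 < q := by linarith
  have hN1 : (0 : ℝ) < (N : ℝ) + 1 := by positivity
  rw [Real.mul_rpow (by norm_num) (by positivity)]
  have h1 : (26 : ℝ) ^ (1 / q) ≤ 6 := by
    calc (26 : ℝ) ^ (1 / q) ≤ 26 ^ (1 / 2 : ℝ) := by
          apply Real.rpow_le_rpow_of_exponent_le (by norm_num)
          exact one_div_le_one_div_of_le (by norm_num) hq
      _ = √26 := by rw [Real.sqrt_eq_rpow]
      _ ≤ 6 := by
          rw [Real.sqrt_le_left (by norm_num)]
          norm_num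
  have h2 : (((N : ℝ) + 1) ^ 2) ^ (1 / q) ≤ 8 := by
    have e : (((N : ℝ) + 1) ^ 2) ^ (1 / q) = Real.exp (2 * Real.log (N + 1) * (1 / q)) := by
      rw [Real.rpow_def_of_pos (by positivity), Real.log_pow]
      push_cast
      rfl
    rw [e]
    have h3 : 2 * Real.log (N + 1) * (1 / q) ≤ 2 := by
      rw [mul_one_div, div_le_iff₀ hq0]
      linarith
    calc Real.exp (2 * Real.log (N + 1) * (1 / q)) ≤ Real.exp 2 := Real.exp_le_exp.2 h3
      _ = Real.exp 1 * Real.exp 1 := by rw [← Real.exp_add]; norm_num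
      _ ≤ 2.72 * 2.72 := by
          have := Real.exp_one_lt_d9
          have h0 := Real.exp_pos 1
          apply mul_le_mul <;> linarith
      _ ≤ 8 := by norm_num
  calc (26 : ℝ) ^ (1 / q) * (((N : ℝ) + 1) ^ 2) ^ (1 / q) ≤ 6 * 8 :=
        mul_le_mul h1 h2 (by positivity) (by norm_num)
    _ ≤ 50 := by norm_num

theorem p_nik : P_NIK := by
  intro N q hq hN M a t
  have hq0 : 0 < q := by linarith
  simp only [norm_shift]
  obtain ⟨t₀, h0⟩ := exists_max N a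
  refine le_trans (h0 t) ?_
  have h1 := av_ge N a q hq t₀ h0
  have hav : 0 ≤ av fun s => ‖tp N a s‖ ^ q := av_nonneg fun s => by positivity
  have h2 : ‖tp N a t₀‖ / 2 ≤
      (26 * ((N : ℝ) + 1) ^ 2 * av fun s => ‖tp N a s‖ ^ q) ^ (1 / q) := by
    have h3 := Real.rpow_le_rpow (by positivity) h1 (by positivity : 0 ≤ 1 / q)
    rwa [← Real.rpow_mul (by positivity), mul_one_div_cancel hq0.ne', Real.rpow_one] at h3
  rw [Real.mul_rpow (by positivity) hav] at h2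
  have h4 := const_le N q hq hN
  have h5 : 0 ≤ (av fun s => ‖tp N a s‖ ^ q) ^ (1 / q) := Real.rpow_nonneg hav _
  have h6 := mul_le_mul_of_nonneg_right h4 h5
  linarith

end Pool.Agent.W2helper84.BQ
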